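import Mathlib

set_option autoImplicit false

open Matrix

namespace Pool.Agent.Work.MP_ff738c_co

/-- Hankel determinant of size `m` of the sequence `g` shifted by `q`. -/
def hk (g : ℕ → ℤ) (q m : ℕ) : ℤ := (Matrix.of fun i j : Fin m => g (q + i + j)).det

/-- Even and odd indices. -/
def par (p r : ℕ) (h2 : r ≤ p) (h3 : p ≤ r + 1) : Fin p ⊕ Fin r ≃ Fin (p + r) where
  toFun := Sum.elim (fun a => ⟨2 * a, by omega⟩) (fun b => ⟨2 * b + 1, by omega⟩)
  invFun := fun k => if h : k.1 % 2 = 0 then Sum.inl ⟨k / 2, by omega⟩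
    else Sum.inr ⟨k / 2, by omega⟩
  left_inv := by
    rintro (a | b)
    · simp
    · have : ¬ (2 * b.1 + 1) % 2 = 0 := by omega
      simp only [Sum.elim_inr]
      rw [dif_neg this]
      congr 1
      ext
      simp only
      omega
  right_inv := by
    intro k
    by_cases h : k.1 % 2 = 0
    · simp only [h, dite_true, Sum.elim_inl, Fin.ext_iff]; omega
    · simp only [h, dite_false, Sum.elim_inr, Fin.ext_iff]; omega

lemma det_blocks {p r : ℕ} (A : Matrix (Fin p) (Fin p) ℤ) (B : Matrix (Fin p) (Fin r) ℤ)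
    (C : Matrix (Fin r) (Fin p) ℤ) (D : Matrix (Fin r) (Fin r) ℤ) (σ : Fin r → Fin p)
    (h : ∀ i j, B i j = A i (σ j)) :
    (fromBlocks A B C D).det = A.det * (Matrix.of fun i j => D i j - C i (σ j)).det := by
  let E : Matrix (Fin p) (Fin r) ℤ := Matrix.of fun a b => if a = σ b then 1 else 0
  have hE : ∀ {s : ℕ} (M : Matrix (Fin s) (Fin p) ℤ) i j, (M * E) i j = M i (σ j) := by
    intro s M i j
    simp [E, Matrix.mul_apply]
  have : fromBlocks A B C D = fromBlocks A 0 C (Matrix.of fun i j => D i j - C i (σ j)) *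
      fromBlocks 1 E 0 1 := by
    rw [fromBlocks_multiply]
    congr 1
    · simp
    · ext i j; simp [hE, h]
    · simp
    · ext i j; simp [hE]
  rw [this, det_mul, det_fromBlocks_zero₁₂, det_fromBlocks_zero₂₁]
  simp

lemma hk_split (g : ℕ → ℤ) (q p r : ℕ) (h2 : r ≤ p) (h3 : p ≤ r + 1) :
    hk g q (p + r) = (fromBlocks
      (Matrix.of fun (a : Fin p) (b : Fin p) => g (q + 2 * a + 2 * b))
      (Matrix.of fun (a : Fin p) (b : Fin r) => g (q + 2 * a + (2 * b + 1)))
      (Matrix.of fun (a : Fin r) (b : Fin p) => g (q + (2 * a + 1) + 2 * b))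
      (Matrix.of fun (a : Fin r) (b : Fin r) => g (q + (2 * a + 1) + (2 * b + 1)))).det := by
  unfold hk
  rw [← det_submatrix_equiv_self (par p r h2 h3)]
  congr 1
  ext (a | a) (b | b) <;> rfl

lemma hk_split' (g : ℕ → ℤ) (q p : ℕ) :
    |hk g q (p + p)| = |(fromBlocks
      (Matrix.of fun (a : Fin p) (b : Fin p) => g (q + (2 * a + 1) + 2 * b))
      (Matrix.of fun (a : Fin p) (b : Fin p) => g (q + (2 * a + 1) + (2 * b + 1)))
      (Matrix.of fun (a : Fin p) (b : Fin p) => g (q + 2 * a + 2 * b))
      (Matrix.of fun (a : Fin p) (b : Fin p) => g (q + 2 * a + (2 * b + 1)))).det| := by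
  unfold hk
  rw [← abs_det_submatrix_equiv_equiv
    ((Equiv.sumComm _ _).trans (par p p le_rfl (Nat.le_succ p))) (par p p le_rfl (Nat.le_succ p))]
  congr 2
  ext (a | a) (b | b) <;> rfl

/-- All Hankel determinants of size `m` have absolute value at most one. -/
def Good (g : ℕ → ℤ) (m : ℕ) : Prop := ∀ q, |hk g q m| ≤ 1

lemma mul_le_one' {a b : ℤ} (ha : |a| ≤ 1) (hb : |b| ≤ 1) : |a * b| ≤ 1 := by
  rw [abs_mul]
  nlinarith [abs_nonneg a, abs_nonneg b]

lemma abs_det_twist {m : ℕ} (M N : Matrix (Fin m) (Fin m) ℤ) (c : ℕ)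
    (h : ∀ i j, N i j = (-1) ^ (c + i + j) * M i j) : N.det = ((-1) ^ c) ^ m * M.det := by
  have h1 : N = Matrix.of fun i j => ((-1 : ℤ) ^ c * (-1) ^ i.1) *
      (Matrix.of fun i j : Fin m => (-1 : ℤ) ^ j.1 * M i j) i j := by
    ext i j
    simp only [h, pow_add, Matrix.of_apply]
    ring
  rw [h1, det_mul_column, det_mul_row, Finset.prod_mul_distrib, Finset.prod_const,
    Finset.card_univ, Fintype.card_fin, mul_assoc, ← mul_assoc (∏ _ : Fin m, _),
    ← Finset.prod_mul_distrib]
  simp [← pow_add]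

lemma Good.twist {g w : ℕ → ℤ} {m : ℕ} (hg : Good g m) (c s : ℕ)
    (h : ∀ k, w k = (-1) ^ (c + k) * g (k + s)) : Good w m := by
  intro q
  have := abs_det_twist (Matrix.of fun i j : Fin m => g (q + s + i + j))
    (Matrix.of fun i j : Fin m => w (q + i + j)) (c + q) (by
      intro i j
      simp only [Matrix.of_apply, h]
      congr 2 <;> omega)
  unfold hk
  rw [this, abs_mul, abs_pow, abs_pow, abs_neg, abs_one, one_pow, one_pow, one_mul]
  exact hg (q + s)

lemma Good.shift {g w : ℕ → ℤ} {m : ℕ} (hg : Good g m) (s : ℕ)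
    (h : ∀ k, w k = g (k + s)) : Good w m := by
  intro q
  have : hk w q m = hk g (q + s) m := by
    unfold hk
    congr 1
    ext i j
    simp only [Matrix.of_apply, h]
    congr 1; omega
  rw [this]
  exact hg _

lemma Good.neg {g : ℕ → ℤ} {m : ℕ} (hg : Good g m) (q : ℕ) (M : Matrix (Fin m) (Fin m) ℤ)
    (h : ∀ i j, M i j = - g (q + i + j)) : |M.det| ≤ 1 := by
  have : M = - Matrix.of fun i j : Fin m => g (q + i + j) := by
    ext i j; simp [h]
  rw [this, det_neg, abs_mul, abs_pow, abs_neg, abs_one, one_pow, one_mul]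
  exact hg q

lemma Good.of_eq {g : ℕ → ℤ} {m : ℕ} (hg : Good g m) (q : ℕ) (M : Matrix (Fin m) (Fin m) ℤ)
    (h : ∀ i j, M i j = g (q + i + j)) : |M.det| ≤ 1 := by
  have : M = Matrix.of fun i j : Fin m => g (q + i + j) := by
    ext i j; simp [h]
  rw [this]
  exact hg q

/-- Doubling: `g (2k) = g (2k+1) = κ k`. -/
lemma good_double {g κ δ : ℕ → ℤ} (hg : ∀ k, g k = κ (k / 2)) (hδ : ∀ k, δ k = κ (k + 1) - κ k)
    {p r : ℕ} (h2 : r ≤ p) (h3 : p ≤ r + 1) (hκ : Good κ p) (hd : Good δ r) :
    Good g (p + r) := by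
  intro q
  rcases Nat.even_or_odd' q with ⟨l, rfl | rfl⟩
  · rw [hk_split g _ p r h2 h3, det_blocks _ _ _ _ (Fin.castLE h2)]
    · refine mul_le_one' (hκ.of_eq l _ ?_) (hd.of_eq l _ ?_)
      · intro i j
        simp only [Matrix.of_apply, hg]
        congr 1; omega
      · intro i j
        simp only [Matrix.of_apply, hg, hδ, Fin.val_castLE]
        congr 2 <;> omega
    · intro i j
      simp only [Matrix.of_apply, hg, Fin.val_castLE]
      congr 1; omega
  · obtain rfl | rfl : p = r ∨ p = r + 1 := by omega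
    · rw [hk_split' g _ p, det_blocks _ _ _ _ id]
      · refine mul_le_one' (hκ.of_eq (l + 1) _ ?_) (hd.of_eq l _ ?_)
        · intro i j
          simp only [Matrix.of_apply, hg]
          congr 1; omega
        · intro i j
          simp only [Matrix.of_apply, hg, hδ, id]
          congr 2 <;> omega
      · intro i j
        simp only [Matrix.of_apply, hg, id]
        congr 1; omega
    · rw [hk_split g _ (r + 1) r h2 h3, det_blocks _ _ _ _ Fin.succ]
      · refine mul_le_one' (hκ.of_eq l _ ?_) (hd.neg (l + 1) _ ?_)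
        · intro i j
          simp only [Matrix.of_apply, hg]
          congr 1; omega
        · intro i j
          simp only [Matrix.of_apply, hg, hδ, Fin.val_succ, neg_sub]
          congr 2 <;> omega
      · intro i j
        simp only [Matrix.of_apply, hg, Fin.val_succ]
        congr 1; omega

/-- Spreading: `g (2k) = κ k`, `g (2k+1) = 0`. -/
lemma good_spread {g κ : ℕ → ℤ} (hg : ∀ k, g k = if k % 2 = 0 then κ (k / 2) else 0)
    {p r : ℕ} (h2 : r ≤ p) (h3 : p ≤ r + 1) (hp : Good κ p) (hr : Good κ r) :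
    Good g (p + r) := by
  have he : ∀ k l, k = 2 * l → g k = κ l := by
    rintro k l rfl
    rw [hg, if_pos (by omega)]
    congr 1; omega
  have ho : ∀ k, k % 2 = 1 → g k = 0 := by
    intro k hk
    rw [hg, if_neg (by omega)]
  intro q
  rcases Nat.even_or_odd' q with ⟨l, rfl | rfl⟩
  · rw [hk_split g _ p r h2 h3]
    have : (Matrix.of fun (a : Fin p) (b : Fin r) => g (2 * l + 2 * a + (2 * b + 1))) = 0 := by
      ext i j
      exact ho _ (by omega)
    rw [this, det_fromBlocks_zero₁₂]
    refine mul_le_one' (hp.of_eq l _ ?_) (hr.of_eq (l + 1) _ ?_)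
    · intro i j
      exact he _ _ (by omega)
    · intro i j
      exact he _ _ (by omega)
  · obtain rfl | rfl : p = r ∨ p = r + 1 := by omega
    · rw [hk_split' g _ p]
      have : (Matrix.of fun (a : Fin p) (b : Fin p) =>
          g (2 * l + 1 + (2 * a + 1) + (2 * b + 1))) = 0 := by
        ext i j
        exact ho _ (by omega)
      rw [this, det_fromBlocks_zero₁₂]
      refine mul_le_one' (hp.of_eq (l + 1) _ ?_) (hp.of_eq (l + 1) _ ?_)
      · intro i j
        exact he _ _ (by omega)
      · intro i j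
        exact he _ _ (by omega)
    · have h := abs_det_twist (Matrix.of fun i j : Fin (r + 1 + r) => g (2 * l + 1 + i + j))
        (Matrix.of fun i j : Fin (r + 1 + r) => g (2 * l + 1 + i + j)) 1 (by
          intro i j
          simp only [Matrix.of_apply]
          rcases Nat.even_or_odd (1 + i.1 + j.1) with h | h
          · rw [h.neg_one_pow, one_mul]
          · rw [ho _ (by obtain ⟨t, ht⟩ := h; omega), mul_zero])
      rw [pow_one, Odd.neg_one_pow ⟨r, by omega⟩] at h
      have h0 : hk g (2 * l + 1) (r + 1 + r) = 0 := by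
        unfold hk
        linarith
      rw [h0]
      simp

/-- Indicator of the integers whose base-four digits are all `0` or `1`. -/
def fs (k : ℕ) : ℤ := if k = 0 then 1 else if k % 4 < 2 then fs (k / 4) else 0
decreasing_by omega

/-- `us (2k) = fs k`, `us (2k+1) = 0`. -/
def us (k : ℕ) : ℤ := if k % 2 = 0 then fs (k / 2) else 0

/-- `es (2k) = es (2k+1) = fs k`. -/
def es (k : ℕ) : ℤ := fs (k / 2)

lemma fs_zero : fs 0 = 1 := by rw [fs]; simp

lemma fs_eq (k : ℕ) : fs k = us (k / 2) := by
  rcases Nat.eq_zero_or_pos k with rfl | hk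
  · simp [us]
  · rw [fs, if_neg hk.ne', us]
    by_cases h : k % 4 < 2
    · rw [if_pos h, if_pos (by omega)]
      congr 1; omega
    · rw [if_neg h, if_neg (by omega)]

lemma fs_mem (k : ℕ) : fs k = 0 ∨ fs k = 1 := by
  induction k using Nat.strong_induction_on with
  | _ k ih =>
    rw [fs]
    split_ifs with h1 h2
    · exact Or.inr rfl
    · exact ih _ (by omega)
    · exact Or.inl rfl

lemma good_zero (g : ℕ → ℤ) : Good g 0 := by
  intro q; simp [hk]

lemma good_one {g : ℕ → ℤ} (h : ∀ k, g k = 0 ∨ g k = 1) : Good g 1 := by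
  intro q
  rcases h q with h | h <;> simp [hk, h]

lemma delta_us (k : ℕ) : us (k + 1) - us k = (-1) ^ (1 + k) * es (k + 1) := by
  rcases Nat.even_or_odd' k with ⟨l, rfl | rfl⟩
  · rw [us, us, es, if_neg (by omega), if_pos (by omega), Odd.neg_one_pow ⟨l, by omega⟩]
    have : (2 * l + 1) / 2 = 2 * l / 2 := by omega
    rw [this]; ring
  · rw [us, us, es, if_pos (by omega), if_neg (by omega), Even.neg_one_pow ⟨l + 1, by omega⟩]
    ring

theorem good_all (m : ℕ) : Good es m ∧ Good fs m := by
  induction m using Nat.strong_induction_on with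
  | _ m ih =>
    obtain rfl | rfl | hm : m = 0 ∨ m = 1 ∨ 2 ≤ m := by omega
    · exact ⟨good_zero _, good_zero _⟩
    · exact ⟨good_one fun k => fs_mem _, good_one fs_mem⟩
    have hsplit : ∀ t : ℕ, t = (t + 1) / 2 + t / 2 := fun t => by omega
    let w : ℕ → ℤ := fun k => (-1) ^ (0 + k) * es (k + 0)
    let sw : ℕ → ℤ := fun k => if k % 2 = 0 then w (k / 2) else 0
    have hw : ∀ t < m, Good w t := fun t ht => (ih t ht).1.twist 0 0 fun _ => rfl
    have hsw : ∀ t < m, Good sw t := by
      intro t ht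
      rw [hsplit t]
      exact good_spread (fun _ => rfl) (by omega) (by omega) (hw _ (by omega)) (hw _ (by omega))
    have hu : ∀ t < m, Good us t := by
      intro t ht
      rw [hsplit t]
      exact good_spread (fun _ => rfl) (by omega) (by omega) (ih _ (by omega)).2
        (ih _ (by omega)).2
    constructor
    · rw [hsplit m]
      refine good_double (κ := fs) (δ := fun k => fs (k + 1) - fs k) (fun _ => rfl) (fun _ => rfl)
        (by omega) (by omega) (ih _ (by omega)).2 ((hsw _ (by omega)).shift 1 ?_)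
      intro k
      rw [fs_eq, fs_eq]
      rcases Nat.even_or_odd' k with ⟨l, rfl | rfl⟩
      · have : (2 * l + 1) / 2 = 2 * l / 2 := by omega
        simp only [sw]
        rw [this, sub_self, if_neg (by omega)]
      · have h1 : (2 * l + 1 + 1) / 2 = l + 1 := by omega
        have h2 : (2 * l + 1) / 2 = l := by omega
        simp only [sw, w]
        rw [h1, h2, delta_us, if_pos (by omega)]
        congr 2; omega
    · rw [hsplit m]
      exact good_double (κ := us) (δ := fun k => us (k + 1) - us k) fs_eq (fun _ => rfl)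
        (by omega) (by omega) (hu _ (by omega)) ((ih _ (by omega)).1.twist 1 1 delta_us)

end Pool.Agent.Work.MP_ff738c_co
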