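import Pool.Agent.Work.MP_ff738c_co.Hankel

/-! The Hankel determinants that start one place earlier. -/

open Matrix

namespace Pool.Agent.Work.MP_ff738c_co.RowZero

lemma det_eq (g : ℕ → ℤ) (q : ℕ) {m : ℕ} (M : Matrix (Fin m) (Fin m) ℤ)
    (h : ∀ i j, M i j = g (q + i + j)) : M.det = hk g q m := by
  unfold hk
  congr 1
  ext i j
  simp [h]

lemma twist_zero {g w : ℕ → ℤ} {m q : ℕ} (h : ∀ k, w k = (-1) ^ (0 + k) * g (k + 0))
    (h0 : hk g q m = 0) : hk w q m = 0 := by
  have := abs_det_twist (Matrix.of fun i j : Fin m => g (q + i + j))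
    (Matrix.of fun i j : Fin m => w (q + i + j)) q (by
      intro i j
      simp only [Matrix.of_apply, h, zero_add, add_zero])
  unfold hk at h0 ⊢
  rw [this, h0, mul_zero]

lemma spread_oo {g κ : ℕ → ℤ} (hg : ∀ k, g k = if k % 2 = 0 then κ (k / 2) else 0) (q m : ℕ)
    (hq : q % 2 = 1) (hm : m % 2 = 1) : hk g q m = 0 := by
  have h := abs_det_twist (Matrix.of fun i j : Fin m => g (q + i + j))
    (Matrix.of fun i j : Fin m => g (q + i + j)) 1 (by
      intro i j
      simp only [Matrix.of_apply]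
      rcases Nat.even_or_odd (1 + i.1 + j.1) with h | h
      · rw [h.neg_one_pow, one_mul]
      · rw [hg, if_neg (by obtain ⟨t, ht⟩ := h; omega), mul_zero])
  rw [pow_one, Odd.neg_one_pow (Nat.odd_iff.2 hm)] at h
  unfold hk
  linarith

lemma spread_oe {g κ : ℕ → ℤ} (hg : ∀ k, g k = if k % 2 = 0 then κ (k / 2) else 0) (l p : ℕ)
    (h0 : hk κ (l + 1) p = 0) : hk g (2 * l + 1) (p + p) = 0 := by
  rw [← abs_eq_zero, hk_split' g _ p]
  have : (Matrix.of fun (a : Fin p) (b : Fin p) =>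
      g (2 * l + 1 + (2 * a + 1) + (2 * b + 1))) = 0 := by
    ext i j
    rw [Matrix.of_apply, hg, if_neg (by omega), Matrix.zero_apply]
  rw [this, det_fromBlocks_zero₁₂, det_eq κ (l + 1), h0, zero_mul, abs_zero]
  intro i j
  rw [Matrix.of_apply, hg, if_pos (by omega)]
  congr 1; omega

lemma spread_e {g κ : ℕ → ℤ} (hg : ∀ k, g k = if k % 2 = 0 then κ (k / 2) else 0) (l : ℕ)
    {p r : ℕ} (h2 : r ≤ p) (h3 : p ≤ r + 1) (h0 : hk κ l p = 0) : hk g (2 * l) (p + r) = 0 := by
  rw [hk_split g _ p r h2 h3]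
  have : (Matrix.of fun (a : Fin p) (b : Fin r) => g (2 * l + 2 * a + (2 * b + 1))) = 0 := by
    ext i j
    rw [Matrix.of_apply, hg, if_neg (by omega), Matrix.zero_apply]
  rw [this, det_fromBlocks_zero₁₂, det_eq κ l, h0, zero_mul]
  intro i j
  rw [Matrix.of_apply, hg, if_pos (by omega)]
  congr 1; omega

lemma double_o {g κ δ : ℕ → ℤ} (hg : ∀ k, g k = κ (k / 2))
    (hδ : ∀ k, δ (k + 1) = κ (k + 1) - κ k) (l p : ℕ)
    (h0 : hk κ (l + 1) p = 0 ∨ hk δ (l + 1) p = 0) : hk g (2 * l + 1) (p + p) = 0 := by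
  rw [← abs_eq_zero, hk_split' g _ p, det_blocks _ _ _ _ id, det_eq κ (l + 1), det_eq δ (l + 1),
    abs_eq_zero, mul_eq_zero]
  · exact h0
  · intro i j
    rw [show l + 1 + i.1 + j.1 = (l + i + j) + 1 by omega, hδ]
    simp only [Matrix.of_apply, hg, id]
    congr 2 <;> omega
  · intro i j
    simp only [Matrix.of_apply, hg]
    congr 1; omega
  · intro i j
    simp only [Matrix.of_apply, hg, id]
    congr 1; omega

lemma double_e {g κ : ℕ → ℤ} (hg : ∀ k, g k = κ (k / 2)) (l : ℕ)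
    {p r : ℕ} (h2 : r ≤ p) (h3 : p ≤ r + 1) (h0 : hk κ l p = 0) : hk g (2 * l) (p + r) = 0 := by
  rw [hk_split g _ p r h2 h3, det_blocks _ _ _ _ (Fin.castLE h2), det_eq κ l, h0, zero_mul]
  · intro i j
    simp only [Matrix.of_apply, hg]
    congr 1; omega
  · intro i j
    simp only [Matrix.of_apply, hg, Fin.val_castLE]
    congr 1; omega

/-- The alternating version of `es`. -/
def ws (k : ℕ) : ℤ := (-1) ^ (0 + k) * es (k + 0)

/-- The spread version of `ws`. -/
def sw (k : ℕ) : ℤ := if k % 2 = 0 then ws (k / 2) else 0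

lemma sw_succ (k : ℕ) : sw (k + 1) = fs (k + 1) - fs k := by
  rw [fs_eq, fs_eq]
  rcases Nat.even_or_odd' k with ⟨l, rfl | rfl⟩
  · have : (2 * l + 1) / 2 = 2 * l / 2 := by omega
    rw [sw, this, sub_self, if_neg (by omega)]
  · have h1 : (2 * l + 1 + 1) / 2 = l + 1 := by omega
    have h2 : (2 * l + 1) / 2 = l := by omega
    rw [sw, h1, h2, delta_us, if_pos (by omega), ws]
    congr 2; omega

lemma es_one (p : ℕ) (hp : 1 ≤ p) : hk es 1 (p + p) = 0 := by
  induction p using Nat.strong_induction_on with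
  | _ p ih =>
    refine double_o (κ := fs) (δ := sw) (fun _ => rfl) sw_succ 0 p ?_
    rcases Nat.even_or_odd p with ⟨t, rfl⟩ | hodd
    · rcases Nat.even_or_odd t with ⟨u, rfl⟩ | hodd
      · exact Or.inr (spread_oe (κ := ws) (fun _ => rfl) 0 _
          (twist_zero (fun _ => rfl) (ih u (by omega) (by omega))))
      · exact Or.inl (double_o (κ := us) (δ := fun k => us k - us (k - 1)) fs_eq (fun _ => rfl) 0 t
          (Or.inl (spread_oo (κ := fs) (fun _ => rfl) _ _ rfl (Nat.odd_iff.1 hodd))))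
    · exact Or.inr (spread_oo (κ := ws) (fun _ => rfl) _ _ rfl (Nat.odd_iff.1 hodd))

lemma es_three (r : ℕ) (hr : 1 ≤ r) : hk es 3 (r + r) = 0 := by
  refine double_o (κ := fs) (δ := sw) (fun _ => rfl) sw_succ 1 r ?_
  have hs : r = (r + 1) / 2 + r / 2 := by omega
  rcases Nat.even_or_odd ((r + 1) / 2) with ⟨u, hu⟩ | hodd
  · right
    rw [hs]
    refine spread_e (κ := ws) (fun _ => rfl) 1 (by omega) (by omega) ?_
    rw [hu]
    exact twist_zero (fun _ => rfl) (es_one u (by omega))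
  · left
    rw [hs]
    exact double_e (κ := us) fs_eq 1 (by omega) (by omega)
      (spread_oo (κ := fs) (fun _ => rfl) _ _ rfl (Nat.odd_iff.1 hodd))

lemma hk_bump {g g' : ℕ → ℤ} (h0 : g' 0 = g 1 - 1) (h : ∀ k, g' (k + 1) = g (k + 2)) (n : ℕ) :
    hk g' 0 (n + 1) = hk g 1 (n + 1) - hk g 3 n := by
  have hs : ∀ j : Fin (n + 1),
      (Matrix.of fun i j : Fin (n + 1) => g' (0 + i + j)).submatrix Fin.succ j.succAbove =
      (Matrix.of fun i j : Fin (n + 1) => g (1 + i + j)).submatrix Fin.succ j.succAbove := by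
    intro j
    ext a b
    simp only [submatrix_apply, Matrix.of_apply, Fin.val_succ]
    rw [show 0 + (a.1 + 1) + (j.succAbove b).1 = (a.1 + (j.succAbove b).1) + 1 by omega, h]
    congr 1; omega
  have h3 : ((Matrix.of fun i j : Fin (n + 1) => g (1 + i + j)).submatrix Fin.succ
      (0 : Fin (n + 1)).succAbove).det = hk g 3 n := by
    apply det_eq
    intro a b
    simp only [submatrix_apply, Matrix.of_apply, Fin.val_succ, Fin.succAbove_zero]
    congr 1; omega
  have hr : ∀ j : Fin n, g' (0 + (0 : Fin (n + 1)).1 + j.succ.1) =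
      g (1 + (0 : Fin (n + 1)).1 + j.succ.1) := by
    intro j
    simp only [Fin.val_zero, Fin.val_succ, zero_add, h]
    congr 1; omega
  rw [hk, hk, det_succ_row_zero, det_succ_row_zero, Fin.sum_univ_succ, Fin.sum_univ_succ]
  simp only [hs, h3, Matrix.of_apply, hr]
  simp only [Fin.val_zero, add_zero, h0, pow_zero]
  ring

theorem row_zero {g : ℕ → ℤ} (h0 : g 0 = 0) (h : ∀ k, g (k + 1) = es (k + 2)) (n : ℕ) :
    |hk g 0 n| ≤ 1 := by
  rcases n with _ | n
  · exact good_zero g 0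
  rw [hk_bump (g := es) (by rw [h0]; simp [es, fs_zero]) h]
  rcases Nat.even_or_odd' n with ⟨r, rfl | rfl⟩
  · rcases Nat.eq_zero_or_pos r with rfl | hr
    · simp [hk, es, fs_zero]
    · rw [two_mul, es_three r hr, sub_zero]
      exact (good_all _).1 1
  · rw [show 2 * r + 1 + 1 = (r + 1) + (r + 1) by omega, es_one _ (by omega), zero_sub, abs_neg]
    exact (good_all _).1 3

end Pool.Agent.Work.MP_ff738c_co.RowZero
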